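import Mathlib
import Pool.Agent.H14.Leonard2

set_option autoImplicit false

namespace Pool.Agent.Results.MP_4722b0_al.Counter

open Pool.Agent.H14.Leonard Matrix

theorem result : ∃ A B C : Module.End ℚ (Fin 3 → ℚ), Triple A B C ∧
    ∀ q : ℚ, A * B - q • (B * A) ∉ Submodule.span ℚ {1, A, B, C} := by
  refine ⟨_, _, _, tripleW, fun q hq => ?_⟩
  let φ : Module.End ℚ (Fin 3 → ℚ) →ₗ[ℚ] ℚ :=
    { toFun := fun T => T ![1, 0, -1] 1
      map_add' := fun _ _ => rfl
      map_smul' := fun _ _ => rfl }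
  have h : Submodule.span ℚ {1, toLin' mA, toLin' mH, toLin' mW} ≤ LinearMap.ker φ := by
    rw [Submodule.span_le]
    rintro T (rfl | rfl | rfl | rfl) <;>
      simp [φ, mA, mH, mW, Matrix.mulVec, dotProduct, Fin.sum_univ_three]
  have := h hq
  simp [φ, mA, mH, Matrix.mulVec, dotProduct, Fin.sum_univ_three] at this

end Pool.Agent.Results.MP_4722b0_al.Counter
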